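import Mathlib
import Pool.Agent.TH994.ZC.Struct

set_option autoImplicit false

namespace Pool.Agent.Results.MP_762844_al.PrimeExponent

open Pool.Agent.TH994.ZC

universe u

/-- **Structure of the infinite non-abelian groups with cofinite Zariski topology.** -/
theorem result :
    -- (A) every example has prime exponent `p ≥ 5`
    (∀ (G : Type u) [Group G] [Infinite G], CofiniteZariski G → (¬ ∀ a b : G, a * b = b * a) →
      ∃ p : ℕ, p.Prime ∧ 5 ≤ p ∧ (∀ x : G, x ^ p = 1) ∧
        Finite (Subgroup.center G) ∧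
        (∀ a : G, a ∉ Subgroup.center G →
          {x : G | x * a = a * x}.Finite ∧ {y : G | ∃ x, y = x * a * x⁻¹}.Infinite) ∧
        (∀ N : Subgroup G, N.Normal → Finite N → N ≤ Subgroup.center G) ∧
        (∀ H : Subgroup G, Group.IsSolvable H → Finite H) ∧
        (∀ H : Subgroup G, (∀ K : Subgroup G, K ≤ H → K.FG → Finite K) → Finite H) ∧
        (∀ H : Subgroup G, Infinite H → CofiniteZariski H ∧ (¬ ∀ a b : H, a * b = b * a) ∧
          (∀ g : G, (∀ x ∈ H, g * x = x * g) → g ∈ Subgroup.center G) ∧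
          (∀ w : FreeGroup ℕ, (∀ f : ℕ → G, (∀ i, f i ∈ H) → FreeGroup.lift f w = 1) →
            ∀ f : ℕ → G, FreeGroup.lift f w = 1)) ∧
        Infinite (G ⧸ Subgroup.center G) ∧ CofiniteZariski (G ⧸ Subgroup.center G) ∧
        Subgroup.center (G ⧸ Subgroup.center G) = ⊥) ∧
    -- (B) so the question is equivalent to the one for finitely generated centreless groups of
    -- prime exponent `p ≥ 5` in which the centraliser of every non-trivial element is finite
    ((∃ (G : Type u) (_ : Group G), Infinite G ∧ CofiniteZariski G ∧ ¬ ∀ a b : G, a * b = b * a) ↔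
      ∃ (p : ℕ) (G : Type u) (_ : Group G), p.Prime ∧ 5 ≤ p ∧ (∀ x : G, x ^ p = 1) ∧
        Group.FG G ∧ Infinite G ∧ CofiniteZariski G ∧ Subgroup.center G = ⊥ ∧
        (∀ a : G, a ≠ 1 → {x : G | x * a = a * x}.Finite) ∧
        ∀ H : Subgroup G, Group.IsSolvable H → Finite H) := by
  have hA : ∀ (G : Type u) [Group G] [Infinite G], CofiniteZariski G →
      (¬ ∀ a b : G, a * b = b * a) →
      ∃ p : ℕ, p.Prime ∧ 5 ≤ p ∧ (∀ x : G, x ^ p = 1) ∧
        Finite (Subgroup.center G) ∧
        (∀ a : G, a ∉ Subgroup.center G →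
          {x : G | x * a = a * x}.Finite ∧ {y : G | ∃ x, y = x * a * x⁻¹}.Infinite) ∧
        (∀ N : Subgroup G, N.Normal → Finite N → N ≤ Subgroup.center G) ∧
        (∀ H : Subgroup G, Group.IsSolvable H → Finite H) ∧
        (∀ H : Subgroup G, (∀ K : Subgroup G, K ≤ H → K.FG → Finite K) → Finite H) ∧
        (∀ H : Subgroup G, Infinite H → CofiniteZariski H ∧ (¬ ∀ a b : H, a * b = b * a) ∧
          (∀ g : G, (∀ x ∈ H, g * x = x * g) → g ∈ Subgroup.center G) ∧
          (∀ w : FreeGroup ℕ, (∀ f : ℕ → G, (∀ i, f i ∈ H) → FreeGroup.lift f w = 1) →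
            ∀ f : ℕ → G, FreeGroup.lift f w = 1)) ∧
        Infinite (G ⧸ Subgroup.center G) ∧ CofiniteZariski (G ⧸ Subgroup.center G) ∧
        Subgroup.center (G ⧸ Subgroup.center G) = ⊥ := by
    intro G _ _ hcof hna
    have hG := inC_of_cof hcof
    obtain ⟨p, hp, hexp⟩ := prime_exponent hG hna
    refine ⟨p, hp, prime_ge_five hG hna hp hexp, hexp, (center_finite hG hna).to_subtype,
      fun a ha => ⟨centralizer_finite hG ha, conj_infinite hG ha⟩,
      fun N hN hf => finite_normal_central hG N hN hf,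
      fun H hs => solvable_finite hG hna H hs,
      fun H hloc => locally_finite hG hna H hloc,
      fun H hH => ⟨cof_of_inC (inC_subgroup hG H), infinite_subgroup_not_comm hG hna H hH,
        fun g hg => central_of_comm_infinite hG H hH g hg, fun w hw f => law hG H hH w hw f⟩,
      infinite_quotient hG hna, cof_of_inC (inC_quotient hG hna), center_quotient hG hna⟩
  refine ⟨hA, ?_, ?_⟩
  · rintro ⟨G, _, hinf, hcof, hna⟩
    have hG := inC_of_cof hcof
    obtain ⟨K, hKfg, hKi⟩ := exists_fg hG hna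
    have hKG := inC_subgroup hG K
    have hKna := infinite_subgroup_not_comm hG hna K hKi
    have hQ := inC_quotient hKG hKna
    have hQi := infinite_quotient hKG hKna
    have hQc := center_quotient hKG hKna
    have hQna := not_comm_of_center hQc
    obtain ⟨p, hp, h5, hexp, -, hcen, -, hsol, -⟩ :=
      hA (K ⧸ Subgroup.center K) (cof_of_inC hQ) hQna
    have : Group.FG K := (Group.fg_iff_subgroup_fg K).2 hKfg
    refine ⟨p, K ⧸ Subgroup.center K, inferInstance, hp, h5, hexp, inferInstance, hQi,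
      cof_of_inC hQ, hQc, ?_, hsol⟩
    intro a ha
    refine (hcen a ?_).1
    rw [hQc, Subgroup.mem_bot]
    exact ha
  · rintro ⟨p, G, _, -, -, -, -, hinf, hcof, hc, -, -⟩
    exact ⟨G, inferInstance, hinf, hcof, not_comm_of_center hc⟩

end Pool.Agent.Results.MP_762844_al.PrimeExponent
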